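import Pool.Agent.Helper28.MAJ.Maj

/-!
# Averaging over the choices, the random index and the cell
-/

set_option autoImplicit false

namespace Pool.ADP

open Finset

/-- resampling one coordinate -/
theorem sum_update {C : Type} [Fintype C] {J : ℕ} (j : Fin J) (F : (Fin J → C) → ℝ) :
    ∑ γ : Fin J → C, ∑ c' : C, F (Function.update γ j c') = Fintype.card C * ∑ c, F c := by
  classical
  have h1 : ∑ γ : Fin J → C, ∑ c' : C, F (Function.update γ j c') =
      ∑ p : (Fin J → C) × C, F (Function.update p.1 j p.2) := by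
    rw [Fintype.sum_prod_type]
  have h2 : ∑ p : (Fin J → C) × C, F (Function.update p.1 j p.2) =
      ∑ p : (Fin J → C) × C, F p.1 := by
    let e : ((Fin J → C) × C) ≃ ((Fin J → C) × C) :=
      { toFun := fun p => (Function.update p.1 j p.2, p.1 j)
        invFun := fun p => (Function.update p.1 j p.2, p.1 j)
        left_inv := fun p => by simp
        right_inv := fun p => by simp }
    exact Fintype.sum_equiv e _ _ fun p => rfl
  rw [h1, h2, Fintype.sum_prod_type]
  simp only [Finset.sum_const, Finset.card_univ, nsmul_eq_mul]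
  rw [Finset.mul_sum]

/-- Averaging over the choices, the random index and the cell; all choices outside the cell are
fixed. -/
theorem exists_cell {Om C : Type} [Fintype Om] [Fintype C] [Nonempty C] {J : ℕ} (hJ : 0 < J)
    (w : Om → ℝ) (hw0 : ∀ i, 0 ≤ w i) (hw1 : ∑ i, w i = 1)
    (bad : Om → Fin J → (Fin J → C) → Prop) (ε : ℝ)
    (h : ∀ c, ∑ j, MAJ.Pr w (fun i => bad i j c) ≤ ε * J) :
    ∃ (i : Om) (j : Fin J) (γ : Fin J → C) (G : Finset C), (1 - ε) * Fintype.card C ≤ (G.card : ℝ) ∧
      ∀ c' ∈ G, ¬ bad i j (Function.update γ j c') := by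
  classical
  by_contra hcon
  push Not at hcon
  -- for each index, cell and outside choice many choices in the cell are bad
  have h1 : ∀ i j γ, ε * Fintype.card C <
      ∑ c' : C, (if bad i j (Function.update γ j c') then (1 : ℝ) else 0) := by
    intro i j γ
    have h2 : ((univ.filter fun c' => ¬ bad i j (Function.update γ j c')).card : ℝ) <
        (1 - ε) * Fintype.card C := by
      by_contra h3
      obtain ⟨c', hc', hb⟩ := hcon i j γ (univ.filter fun c' => ¬ bad i j (Function.update γ j c'))
        (not_lt.1 h3)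
      exact (Finset.mem_filter.1 hc').2 hb
    have h3 : ((univ.filter fun c' => ¬ bad i j (Function.update γ j c')).card : ℝ) +
        ∑ c' : C, (if bad i j (Function.update γ j c') then (1 : ℝ) else 0) = Fintype.card C := by
      rw [Finset.card_filter, Nat.cast_sum, ← Finset.sum_add_distrib]
      rw [Finset.sum_congr rfl (g := fun _ => (1 : ℝ))
        (fun c' _ => by by_cases hb : bad i j (Function.update γ j c') <;> simp [hb])]
      simp
    linarith
  have hC : 0 < Fintype.card (Fin J → C) := Fintype.card_pos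
  have hc : (0 : ℝ) < Fintype.card C := by exact_mod_cast Fintype.card_pos
  have h4 : ∀ i j, ε * Fintype.card (Fin J → C) <
      ∑ c : Fin J → C, (if bad i j c then (1 : ℝ) else 0) := by
    intro i j
    have h5 : ∑ _γ : Fin J → C, ε * (Fintype.card C : ℝ) <
        ∑ γ : Fin J → C, ∑ c' : C, (if bad i j (Function.update γ j c') then (1 : ℝ) else 0) :=
      Finset.sum_lt_sum_of_nonempty (Finset.univ_nonempty) fun γ _ => h1 i j γ
    rw [sum_update j (fun c => if bad i j c then (1 : ℝ) else 0), Finset.sum_const,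
      Finset.card_univ, nsmul_eq_mul] at h5
    have h6 : (Fintype.card C : ℝ) * (ε * Fintype.card (Fin J → C)) <
        Fintype.card C * ∑ c : Fin J → C, (if bad i j c then (1 : ℝ) else 0) := by
      linarith
    exact lt_of_mul_lt_mul_left h6 hc.le
  have h7 : ∑ c : Fin J → C, ∑ j, MAJ.Pr w (fun i => bad i j c) ≤
      ∑ _c : Fin J → C, ε * (J : ℝ) := Finset.sum_le_sum fun c _ => h c
  have h8 : ∑ c : Fin J → C, ∑ j, MAJ.Pr w (fun i => bad i j c) =
      ∑ j : Fin J, ∑ i, w i * ∑ c : Fin J → C, (if bad i j c then (1 : ℝ) else 0) := by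
    rw [Finset.sum_comm]
    refine Finset.sum_congr rfl fun j _ => ?_
    rw [Finset.sum_congr rfl fun c _ => MAJ.Pr_eq w (fun i => bad i j c), Finset.sum_comm]
    exact Finset.sum_congr rfl fun i _ => (Finset.mul_sum _ _ _).symm
  have h9 : ∑ _j : Fin J, ε * (Fintype.card (Fin J → C) : ℝ) <
      ∑ j : Fin J, ∑ i, w i * ∑ c : Fin J → C, (if bad i j c then (1 : ℝ) else 0) := by
    have : Nonempty (Fin J) := ⟨⟨0, hJ⟩⟩
    refine Finset.sum_lt_sum_of_nonempty Finset.univ_nonempty fun j _ => ?_
    obtain ⟨i0, hi0⟩ : ∃ i, 0 < w i := by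
      by_contra h10
      push Not at h10
      have h11 : ∑ i, w i ≤ 0 := Finset.sum_nonpos fun i _ => h10 i
      linarith
    calc ε * (Fintype.card (Fin J → C) : ℝ)
        = ∑ i, w i * (ε * Fintype.card (Fin J → C)) := by
          rw [← Finset.sum_mul, hw1, one_mul]
      _ < _ := Finset.sum_lt_sum (fun i _ => mul_le_mul_of_nonneg_left (h4 i j).le (hw0 i))
          ⟨i0, Finset.mem_univ _, mul_lt_mul_of_pos_left (h4 i0 j) hi0⟩
  rw [← h8] at h9
  simp only [Finset.sum_const, Finset.card_univ, nsmul_eq_mul, Fintype.card_fin] at h7 h9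
  have h12 : (J : ℝ) * (ε * Fintype.card (Fin J → C)) =
      Fintype.card (Fin J → C) * (ε * J) := by ring
  linarith

end Pool.ADP
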